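import Pool.Agent.N303.KQ.App

/-!
# Definitions for the project NH (a non-hyperlinear group)
-/

set_option autoImplicit false

namespace Pool.Agent.N52.NH

open Matrix Finset
open scoped ComplexOrder
open Pool.Agent.W661.RC Pool.Agent.W683.RC Pool.Agent.N303.KQ

noncomputable section

variable {d : ℕ}

/-- `T` is a union of classes -/
def Sat (O : Out d) (T : O.I → Prop) : Prop := ∀ i j, O.c i = O.c j → T i → T j

open Classical in
/-- the central projection of the block algebra belonging to the set `T` of indices -/
def ZT (O : Out d) (T : O.I → Prop) : Mt d := ∑ i ∈ univ.filter T, pr O i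

/-- the class of `i` has size `> t * multiplicity` -/
def Hi (O : Out d) (t : ℝ) : O.I → Prop := fun i => t * (O.l (O.c i) : ℝ) < (mc O i : ℝ)

/-- the class of `i` has size `≤ t * multiplicity` -/
def Lo (O : Out d) (t : ℝ) : O.I → Prop := fun i => (mc O i : ℝ) ≤ t * (O.l (O.c i) : ℝ)

/-- the class of `i` has size between `t` and `2 t` times the multiplicity -/
def Md (O : Out d) (t : ℝ) : O.I → Prop := fun i => Hi O t i ∧ Lo O (2 * t) i

open Classical in
/-- weighted size of the family `f` (indexed by the orthonormal basis) over the classes in `T` -/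
def WS (O : Out d) (T : O.I → Prop) (f : Yx O → ℝ) : ℝ :=
  ∑ y ∈ univ.filter (fun y : Yx O => T y.1.1), f y * fw O y ^ 2

/-- every contraction which almost commutes with the `u s` is almost a scalar -/
def IrrA {k : ℕ} (u : Fin k → Mt d) (K1 ε : ℝ) : Prop :=
  ∀ x : Mt d, Le (xᴴ * x) 1 → ∃ lam : ℂ, hs (x - lam • (1 : Mt d)) ≤ K1 * en u x + ε * d

/-- the columns of `Θ` which belong to the index `i` -/
def Jc (O : Out d) (i : O.I) : Matrix (Fin d) (Fin (O.l (O.c i))) ℂ := fun a q => O.Θ a ⟨i, q⟩

end

end Pool.Agent.N52.NH
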