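import Pool.Agent.N52.NH.Stm
import Pool.Agent.N957.NH.Stm

/-!
# NH: assembly of the analytic part
-/

set_option autoImplicit false

namespace Pool.Agent.N52.NH.MAINH

open Matrix Finset
open scoped ComplexOrder
open Pool.Agent.W661.RC Pool.Agent.W683.RC Pool.Agent.N303.KQ Pool.Agent.N52.NH
open Pool.Agent.H21R2 (IsHyperlinear IsSofic)

noncomputable section

theorem hs_word {k d : ℕ} (U : Fin k → unitaryGroup (Fin d) ℂ) (a b : FreeGroup (Fin k)) :
    hs ((FreeGroup.lift U (a * b⁻¹) : Mt d) - 1) =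
      hs ((FreeGroup.lift U a : Mt d) - (FreeGroup.lift U b : Mt d)) := by
  have h1 : (FreeGroup.lift U a : Mt d) =
      (FreeGroup.lift U (a * b⁻¹) : Mt d) * (FreeGroup.lift U b : Mt d) := by
    rw [← UnitaryGroup.mul_val, ← map_mul, inv_mul_cancel_right]
  have h2 : (FreeGroup.lift U a : Mt d) - (FreeGroup.lift U b : Mt d) =
      ((FreeGroup.lift U (a * b⁻¹) : Mt d) - 1) * (FreeGroup.lift U b : Mt d) := by
    rw [Matrix.sub_mul, Matrix.one_mul, ← h1]
  rw [h2, hs_mul_unit (un_conj _)]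

theorem lift_lift {k : ℕ} {G : Type} [Group G] (U : Fin k → G) (w : Fin k → FreeGroup (Fin k))
    (b : FreeGroup (Fin k)) :
    FreeGroup.lift (fun j => FreeGroup.lift U (w j)) b = FreeGroup.lift U (FreeGroup.lift w b) := by
  have h : FreeGroup.lift (fun j => FreeGroup.lift U (w j)) =
      (FreeGroup.lift U).comp (FreeGroup.lift w) := by
    apply FreeGroup.ext_hom
    intro j
    simp
  rw [h]; rfl

theorem main (hR : S_RED) (hB : S_BLK) (hG : S_GEN) (hC : Pool.Agent.N957.NH.S_CORE) :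
    S_MAINH := by
  intro G _ θ η h hT hD hHyp
  classical
  obtain ⟨k, γ, s0, hγ, hs0, hmon⟩ := hG G θ h hT hD.mono hD.gen
  choose w hw using fun t : Fin k => hγ (θ (γ (FreeGroup.of t)))
  have hlw : ∀ b : FreeGroup (Fin k), γ (FreeGroup.lift w b) = θ (γ b) := by
    intro b
    have h1 : γ.comp (FreeGroup.lift w) = θ.comp γ := by
      apply FreeGroup.ext_hom
      intro j
      simp [hw]
    exact congrFun (congrArg DFunLike.coe h1) b
  -- conjugation words
  have hv : ∀ s t : Fin k, ∃ v : FreeGroup (Fin k), θ (γ (FreeGroup.of t)) =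
      γ (FreeGroup.of s) * θ (γ v) * (γ (FreeGroup.of s))⁻¹ := by
    intro s t
    obtain ⟨b, hb⟩ := hmon s (γ (FreeGroup.of t))
    obtain ⟨v, rfl⟩ := hγ b
    exact ⟨v, hb⟩
  choose v hv using hv
  -- non-commuting elements
  obtain ⟨l1, l2, hl⟩ : ∃ a b : G, a * b ≠ b * a := by
    by_contra hcon
    push Not at hcon
    obtain ⟨g, hg⟩ := hD.nontriv
    apply hg
    have h1 : g ∈ commutator G := by rw [hD.perf]; trivial
    have h2 : commutator G = ⊥ := by
      rw [commutator_def, Subgroup.commutator_eq_bot_iff_le_centralizer]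
      intro x _ y _
      exact hcon y x
    rw [h2] at h1
    exact Subgroup.mem_bot.1 h1
  let ll : Fin 2 → G := ![l1, l2]
  choose vw hvw using fun j : Fin 2 => hγ (η (ll j))
  have hvl : ∀ j : Fin 2, ∃ v : FreeGroup (Fin k), η (ll j) = h * θ (γ v) * h⁻¹ := by
    intro j
    obtain ⟨b, hb⟩ := hD.sub (ll j)
    obtain ⟨v, rfl⟩ := hγ b
    exact ⟨v, hb⟩
  choose vl hvl using hvl
  obtain ⟨K1, hK1, hR⟩ := hR G k γ hT hγ hHyp
  obtain ⟨K0, hK0, hB⟩ := hB G k γ hT hγ
  obtain ⟨ε, hε, hC⟩ := hC k K0 (max K1 1) v (v s0) vl hK0 (le_max_right _ _)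
  obtain ⟨R, δ, hRw, hδ, hB⟩ := hB ε hε
  -- the relators
  let rel : FreeGroup (Fin k) → FreeGroup (Fin k) → FreeGroup (Fin k) := fun a b => a * b⁻¹
  let E1 : Finset (FreeGroup (Fin k)) := univ.image fun p : Fin k × Fin k =>
    rel (w p.2 * FreeGroup.of p.1) (FreeGroup.of p.1 * FreeGroup.lift w (v p.1 p.2))
  let E3 : Finset (FreeGroup (Fin k)) := univ.image fun p : Fin 2 × Fin k =>
    rel (w p.2 * vw p.1) (vw p.1 * w p.2)
  let E4 : Finset (FreeGroup (Fin k)) := univ.image fun j : Fin 2 =>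
    rel (vw j * FreeGroup.of s0) (FreeGroup.of s0 * FreeGroup.lift w (vl j))
  let E5 : Finset (FreeGroup (Fin k)) := R.image fun r => FreeGroup.lift w r
  have hE : ∀ x ∈ E1 ∪ E3 ∪ E4 ∪ E5, γ x = 1 := by
    intro x hx
    simp only [mem_union] at hx
    rcases hx with ((hx | hx) | hx) | hx
    · obtain ⟨⟨s, t⟩, -, rfl⟩ := mem_image.1 hx
      simp only [rel, map_mul, map_inv, hw, hlw]
      rw [hv s t]
      group
    · obtain ⟨⟨j, t⟩, -, rfl⟩ := mem_image.1 hx
      simp only [rel, map_mul, map_inv, hw, hvw]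
      rw [hD.comm]
      group
    · obtain ⟨j, -, rfl⟩ := mem_image.1 hx
      simp only [rel, map_mul, map_inv, hlw, hvw, hs0]
      rw [hvl j]
      group
    · obtain ⟨r, hr, rfl⟩ := mem_image.1 hx
      rw [hlw, hRw r hr, map_one]
  have hw0 : γ (rel (vw 0 * vw 1) (vw 1 * vw 0)) ≠ 1 := by
    simp only [rel, map_mul, map_inv, hvw]
    intro h1
    rw [mul_inv_eq_one, ← map_mul, ← map_mul] at h1
    exact hl (hD.inj h1)
  obtain ⟨d, U, hd, hU, hU0, hIrr⟩ := hR (E1 ∪ E3 ∪ E4 ∪ E5) _ (min ε δ) hE hw0 (lt_min hε hδ)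
  have hdr : (0 : ℝ) < d := by exact_mod_cast hd
  have hle1 : min ε δ * d ≤ ε * d := mul_le_mul_of_nonneg_right (min_le_left _ _) hdr.le
  have hle2 : min ε δ * d ≤ δ * d := mul_le_mul_of_nonneg_right (min_le_right _ _) hdr.le
  set UK : Fin k → unitaryGroup (Fin d) ℂ := fun t => FreeGroup.lift U (w t) with hUK
  have hlUK : ∀ b, FreeGroup.lift UK b = FreeGroup.lift U (FreeGroup.lift w b) := by
    intro b
    rw [hUK, lift_lift]
  obtain ⟨O, hO⟩ := hB d UK hd fun r hr => by
    rw [hlUK]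
    exact (hU _ (by
      simp only [mem_union]
      exact Or.inr (mem_image.2 ⟨r, hr, rfl⟩))).trans hle2
  have key := hC d U UK (U s0) (fun j => FreeGroup.lift U (vw j)) O hd hO.en hO.near hO.size ?_
    ?_ ?_ ?_ ?_
  · have h1 : hs ((FreeGroup.lift U (rel (vw 0 * vw 1) (vw 1 * vw 0)) : Mt d) - 1) =
        hs ((FreeGroup.lift U (vw 0) : Mt d) * (FreeGroup.lift U (vw 1) : Mt d) -
          (FreeGroup.lift U (vw 1) : Mt d) * (FreeGroup.lift U (vw 0) : Mt d)) := by
      simp only [rel]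
      rw [hs_word, map_mul, map_mul, UnitaryGroup.mul_val, UnitaryGroup.mul_val]
    rw [h1] at hU0
    linarith
  · intro x hx
    obtain ⟨m, hm⟩ := hIrr x hx
    refine ⟨m, hm.trans ?_⟩
    have h1 : 0 ≤ en (fun s => (U s : Mt d)) x :=
      sum_nonneg fun s _ => Pool.Agent.W683.RC.hs_nonneg _
    have h2 := mul_le_mul_of_nonneg_right (le_max_left K1 1) h1
    linarith
  · intro s t
    have h1 := hU (rel (w t * FreeGroup.of s) (FreeGroup.of s * FreeGroup.lift w (v s t))) (by
      simp only [mem_union]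
      exact Or.inl (Or.inl (Or.inl (mem_image.2 ⟨(s, t), mem_univ _, rfl⟩))))
    simp only [rel] at h1
    rw [hs_word, map_mul, map_mul, UnitaryGroup.mul_val, UnitaryGroup.mul_val,
      FreeGroup.lift_apply_of, ← hlUK] at h1
    exact h1.trans hle1
  · intro t
    have h1 := hU (rel (w t * FreeGroup.of s0) (FreeGroup.of s0 * FreeGroup.lift w (v s0 t))) (by
      simp only [mem_union]
      exact Or.inl (Or.inl (Or.inl (mem_image.2 ⟨(s0, t), mem_univ _, rfl⟩))))
    simp only [rel] at h1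
    rw [hs_word, map_mul, map_mul, UnitaryGroup.mul_val, UnitaryGroup.mul_val,
      FreeGroup.lift_apply_of, ← hlUK] at h1
    exact h1.trans hle1
  · intro j t
    have h1 := hU (rel (w t * vw j) (vw j * w t)) (by
      simp only [mem_union]
      exact Or.inl (Or.inl (Or.inr (mem_image.2 ⟨(j, t), mem_univ _, rfl⟩))))
    simp only [rel] at h1
    rw [hs_word, map_mul, map_mul, UnitaryGroup.mul_val, UnitaryGroup.mul_val] at h1
    exact h1.trans hle1
  · intro j
    have h1 := hU (rel (vw j * FreeGroup.of s0) (FreeGroup.of s0 * FreeGroup.lift w (vl j))) (by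
      simp only [mem_union]
      exact Or.inl (Or.inr (mem_image.2 ⟨j, mem_univ _, rfl⟩)))
    simp only [rel] at h1
    rw [hs_word, map_mul, map_mul, UnitaryGroup.mul_val, UnitaryGroup.mul_val,
      FreeGroup.lift_apply_of, ← hlUK] at h1
    exact h1.trans hle1

end

end Pool.Agent.N52.NH.MAINH
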