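import Pool.Agent.N52.NH.Defs
import Pool.Agent.N44.NS.Defs

/-!
# Statements of the steps of the project NH (a non-hyperlinear group)
-/

set_option autoImplicit false

namespace Pool.Agent.N52.NH

open Matrix Finset
open scoped ComplexOrder
open Pool.Agent.W661.RC Pool.Agent.W683.RC Pool.Agent.N303.KQ
open Pool.Agent.H21R2 (IsHyperlinear IsSofic)

noncomputable section

/-- BAS: basic facts about the central projections and the design. -/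
def S_BAS : Prop :=
  ∀ (d : ℕ) (O : Out d) (T : O.I → Prop), Sat O T →
    IsPr (ZT O T) ∧ ZT O T ∈ O.alg ∧ (∀ a ∈ O.alg, ZT O T * a = a * ZT O T) ∧
    (∀ y : Yx O, (T y.1.1 → ZT O T * Jb O y = Jb O y) ∧ (¬ T y.1.1 → ZT O T * Jb O y = 0)) ∧
    (∀ ω : Om O, (vv O ω * ZT O T)ᴴ * (vv O ω * ZT O T) = ZT O T ∧
      Le ((vv O ω * ZT O T)ᴴ * (vv O ω * ZT O T)) 1) ∧
    (∀ (Z : Type) [Fintype Z] (K : Matrix Z (Yx O) ℂ),
      ∑ ω : Om O, nsq (K *ᵥ kp (Jb O) (vv O ω * ZT O T)) =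
        Fintype.card (Om O) * WS O T (fun y => ∑ z, ‖K z y‖ ^ 2)) ∧
    tr (ZT O T) = WS O T (fun _ => 1)

/-- ML: monotonicity of the level projections. -/
def S_ML : Prop :=
  ∀ (d : ℕ) (O : Out d) (g : Mt d) (ε t t' : ℝ), gᴴ * g = 1 → 0 ≤ ε → 0 ≤ t' → t' < t →
    NearInv O g ε →
    (t - t') * tr (ZT O (Lo O t') * (g * ZT O (Hi O t) * gᴴ)) ≤ t * (ε * d)

/-- CST: in an irreducible approximation the Casimir operator is almost constant. -/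
def S_CST : Prop :=
  ∀ (k : ℕ) (K1 ρ : ℝ), 0 ≤ K1 → 0 < ρ → ∃ ε : ℝ, 0 < ε ∧
    ∀ (d : ℕ) (O : Out d) (u : Fin k → Mt d), 0 < d → (∀ s, (u s)ᴴ * u s = 1) →
      (∀ s, NearInv O (u s) ε) → IrrA u K1 ε → (d : ℝ) - D0 O ≤ ε * d →
      ∃ t : ℝ, 0 < t ∧ (1 - ρ) * d ≤ tr (ZT O (Md O t))

/-- TRN: a unitary which almost commutes with the conjugated algebra almost commutes with the
algebra. -/
def S_TRN : Prop :=
  ∀ (d : ℕ) (O : Out d) (g V : Mt d) (ε ρ t : ℝ), gᴴ * g = 1 → Vᴴ * V = 1 → 0 ≤ ε → 0 ≤ ρ →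
    0 < t → NearInv O g ε → (1 - ρ) * d ≤ tr (ZT O (Md O t)) →
    (∀ a ∈ O.alg, Le (aᴴ * a) 1 → hs (V * (g * a * gᴴ) - g * a * gᴴ * V) ≤ ε * d) →
    WS O (Md O t) (fun y => hs (V * Jb O y - Jb O y * V)) ≤ 100 * (ρ + ε) * d

/-- END: an element which almost commutes with the algebra almost commutes with a unitary which is
close to the algebra. -/
def S_END : Prop :=
  ∀ (d : ℕ) (O : Out d) (T : O.I → Prop) (V1 V2 a : Mt d) (ε ρ : ℝ), Sat O T → V1ᴴ * V1 = 1 →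
    V2ᴴ * V2 = 1 → 0 ≤ ε → 0 ≤ ρ → (1 - ρ) * d ≤ tr (ZT O T) →
    WS O T (fun y => hs (V1 * Jb O y - Jb O y * V1)) ≤ ε * d →
    a ∈ O.alg → Le (aᴴ * a) 1 → hs (V2 - a) ≤ ε * d →
    hs (V1 * V2 - V2 * V1) ≤ 100 * (ρ + ε) * d

/-- CORE: the finite-dimensional theorem. -/
def S_CORE : Prop :=
  ∀ (k : ℕ) (K1 ε0 : ℝ), 0 ≤ K1 → 0 < ε0 → ∃ ε : ℝ, 0 < ε ∧
    ∀ (d : ℕ) (O : Out d) (u : Fin k → Mt d) (s0 : Fin k) (V1 V2 : Mt d), 0 < d →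
      (∀ s, (u s)ᴴ * u s = 1) → V1ᴴ * V1 = 1 → V2ᴴ * V2 = 1 →
      (∀ s, NearInv O (u s) ε) → IrrA u K1 ε → (d : ℝ) - D0 O ≤ ε * d →
      (∃ a ∈ O.alg, Le (aᴴ * a) 1 ∧ hs (V2 - a) ≤ ε * d) →
      (∀ a ∈ O.alg, Le (aᴴ * a) 1 →
        hs (V1 * (u s0 * a * (u s0)ᴴ) - u s0 * a * (u s0)ᴴ * V1) ≤ ε * d) →
      hs (V1 * V2 - V2 * V1) ≤ ε0 * d

/-- BLK: block algebras for approximate representations of a Kazhdan group. -/
def S_BLK : Prop :=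
  ∀ (G : Type) [Group G] (k : ℕ) (γ : FreeGroup (Fin k) →* G), HasT G →
    Function.Surjective γ → ∃ K0 : ℝ, 0 < K0 ∧ ∀ ε : ℝ, 0 < ε →
    ∃ (R : Finset (FreeGroup (Fin k))) (δ : ℝ), (∀ w ∈ R, γ w = 1) ∧ 0 < δ ∧
      ∀ (d : ℕ) (U : Fin k → unitaryGroup (Fin d) ℂ), 0 < d →
        (∀ w ∈ R, hs ((FreeGroup.lift U w : Mt d) - 1) ≤ δ * d) →
        ∃ O : Out d, BlkA (fun s => (U s : Mt d)) K0 ε O

/-- HYW: unitary approximations for words. -/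
def S_HYW : Prop :=
  ∀ (G : Type) [Group G], IsHyperlinear G → ∀ (k : ℕ) (γ : FreeGroup (Fin k) →* G)
    (E : Finset (FreeGroup (Fin k))) (w0 : FreeGroup (Fin k)) (ε : ℝ), (∀ w ∈ E, γ w = 1) →
    γ w0 ≠ 1 → 0 < ε →
    ∃ (d : ℕ) (U : Fin k → unitaryGroup (Fin d) ℂ), 0 < d ∧
      (∀ w ∈ E, hs ((FreeGroup.lift U w : Mt d) - 1) ≤ ε * d) ∧
      (1 - ε) * d ≤ hs ((FreeGroup.lift U w0 : Mt d) - 1)

/-- PCS: compression to the pieces of the block algebra. -/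
def S_PCS : Prop :=
  ∀ (d k : ℕ) (U : Fin k → unitaryGroup (Fin d) ℂ) (O : Out d) (ε : ℝ),
    (∀ a ∈ O.alg, Le (aᴴ * a) 1 → en (fun s => (U s : Mt d)) a ≤ ε * d) →
    ∃ W : (i : O.I) → Fin k → unitaryGroup (Fin (O.l (O.c i))) ℂ,
      ∑ i, ∑ s, hs ((U s : Mt d) * Jc O i - Jc O i * (W i s : Mt (O.l (O.c i)))) ≤ 4 * (ε * d)

/-- WDI: words and almost intertwiners. -/
def S_WDI : Prop :=
  ∀ (k : ℕ) (w : FreeGroup (Fin k)), ∃ C : ℝ, 0 ≤ C ∧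
    ∀ (d : ℕ) (I : Type) [Fintype I] (l : I → ℕ) (U : Fin k → unitaryGroup (Fin d) ℂ)
      (J : (i : I) → Matrix (Fin d) (Fin (l i)) ℂ)
      (W : (i : I) → Fin k → unitaryGroup (Fin (l i)) ℂ),
      ∑ i, hs ((FreeGroup.lift U w : Mt d) * J i - J i * (FreeGroup.lift (W i) w : Mt (l i))) ≤
        C * ∑ i, ∑ s, hs ((U s : Mt d) * J i - J i * (W i s : Mt (l i)))

/-- IRP: the pieces are irreducible on average. -/
def S_IRP : Prop :=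
  ∀ (d k : ℕ) (U : Fin k → unitaryGroup (Fin d) ℂ) (O : Out d) (K0 ε β : ℝ)
    (W : (i : O.I) → Fin k → unitaryGroup (Fin (O.l (O.c i))) ℂ), 0 ≤ K0 →
    BlkA (fun s => (U s : Mt d)) K0 ε O →
    ∑ i, ∑ s, hs ((U s : Mt d) * Jc O i - Jc O i * (W i s : Mt (O.l (O.c i)))) ≤ β →
    ∀ x : (i : O.I) → Mt (O.l (O.c i)), (∀ i, Le ((x i)ᴴ * x i) 1) →
      ∃ lam : O.I → ℂ, ∑ i, hs (x i - lam i • (1 : Mt (O.l (O.c i)))) ≤
        3 * K0 * ∑ i, en (fun s => (W i s : Mt (O.l (O.c i)))) (x i) + 6 * K0 * β + ε * d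

/-- RED: a hyperlinear Kazhdan group has irreducible approximations. -/
def S_RED : Prop :=
  ∀ (G : Type) [Group G] (k : ℕ) (γ : FreeGroup (Fin k) →* G), HasT G →
    Function.Surjective γ → IsHyperlinear G → ∃ K1 : ℝ, 0 < K1 ∧
    ∀ (E : Finset (FreeGroup (Fin k))) (w0 : FreeGroup (Fin k)) (ε : ℝ), (∀ w ∈ E, γ w = 1) →
      γ w0 ≠ 1 → 0 < ε →
      ∃ (d : ℕ) (U : Fin k → unitaryGroup (Fin d) ℂ), 0 < d ∧
        (∀ w ∈ E, hs ((FreeGroup.lift U w : Mt d) - 1) ≤ ε * d) ∧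
        (3 / 8 : ℝ) * d ≤ hs ((FreeGroup.lift U w0 : Mt d) - 1) ∧
        IrrA (fun s => (U s : Mt d)) K1 ε

/-- WR1: relations give near invariance of the block algebra. -/
def S_WR1 : Prop :=
  ∀ (k : ℕ) (w : Fin k → FreeGroup (Fin k)) (s : Fin k) (β : Fin k → FreeGroup (Fin k)) (K0 : ℝ),
    0 ≤ K0 → ∃ C : ℝ, 0 < C ∧
    ∀ (d : ℕ) (U : Fin k → unitaryGroup (Fin d) ℂ) (O : Out d) (ε : ℝ), 0 ≤ ε →
      BlkA (fun j => (FreeGroup.lift U (w j) : Mt d)) K0 ε O →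
      (∀ j, hs ((FreeGroup.lift U ((w j)⁻¹ *
        (FreeGroup.of s * FreeGroup.lift w (β j) * (FreeGroup.of s)⁻¹)) : Mt d) - 1) ≤ ε * d) →
      NearInv O (U s : Mt d) (C * ε)

/-- WR2: a word which commutes with the subgroup is close to the block algebra. -/
def S_WR2 : Prop :=
  ∀ (k : ℕ) (w : Fin k → FreeGroup (Fin k)) (K0 : ℝ), 0 ≤ K0 → ∃ C : ℝ, 0 < C ∧
    ∀ (v : FreeGroup (Fin k)) (d : ℕ) (U : Fin k → unitaryGroup (Fin d) ℂ) (O : Out d) (ε : ℝ),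
      0 ≤ ε → BlkA (fun j => (FreeGroup.lift U (w j) : Mt d)) K0 ε O →
      (∀ j, hs ((FreeGroup.lift U (v * w j * v⁻¹ * (w j)⁻¹) : Mt d) - 1) ≤ ε * d) →
      ∃ a ∈ O.alg, Le (aᴴ * a) 1 ∧ hs ((FreeGroup.lift U v : Mt d) - a) ≤ C * ε * d

/-- WR3: a word in the conjugated subgroup almost commutes with the conjugated algebra. -/
def S_WR3 : Prop :=
  ∀ (k : ℕ) (w : Fin k → FreeGroup (Fin k)) (s : Fin k) (b : FreeGroup (Fin k)),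
    ∃ C : ℝ, 0 < C ∧
    ∀ (v : FreeGroup (Fin k)) (d : ℕ) (U : Fin k → unitaryGroup (Fin d) ℂ) (O : Out d) (K0 ε : ℝ),
      0 ≤ ε → BlkA (fun j => (FreeGroup.lift U (w j) : Mt d)) K0 ε O →
      hs ((FreeGroup.lift U (v⁻¹ *
        (FreeGroup.of s * FreeGroup.lift w b * (FreeGroup.of s)⁻¹)) : Mt d) - 1) ≤ ε * d →
      ∀ a ∈ O.alg, Le (aᴴ * a) 1 →
        hs ((FreeGroup.lift U v : Mt d) * ((U s : Mt d) * a * (U s : Mt d)ᴴ) -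
          (U s : Mt d) * a * (U s : Mt d)ᴴ * (FreeGroup.lift U v : Mt d)) ≤ C * ε * d

/-- GEN: generators `g` with `θ(G) ≤ g θ(G) g⁻¹`. -/
def S_GEN : Prop :=
  ∀ (G : Type) [Group G] (θ : G →* G) (h : G), HasT G → (∀ a, ∃ b, θ a = h * θ b * h⁻¹) →
    Subgroup.closure {g : G | ∀ a, ∃ b, θ a = g * θ b * g⁻¹} = ⊤ →
    ∃ (k : ℕ) (γ : FreeGroup (Fin k) →* G) (s0 : Fin k), Function.Surjective γ ∧
      γ (FreeGroup.of s0) = h ∧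
      ∀ s a, ∃ b, θ a = γ (FreeGroup.of s) * θ b * (γ (FreeGroup.of s))⁻¹

/-- MAINH: the analytic part. -/
def S_MAINH : Prop :=
  ∀ (G : Type) [Group G] (θ η : G →* G) (h : G), HasT G → Pool.Agent.N44.NS.Dat G θ η h →
    ¬ IsHyperlinear G

/-- SH: sofic groups are hyperlinear. -/
def S_SH : Prop := ∀ (G : Type) [Group G], IsSofic G → IsHyperlinear G

end

end Pool.Agent.N52.NH
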